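import Pool.Agent.Lib.MP_939ffc_anC.Main3

/-!
# MP_939ffc_an: criteria in terms of the momentum about the origin
-/

open MeasureTheory Set Metric Filter Topology
open scoped ENNReal NNReal Pointwise
open Pool.Agent.Lib.MP_deb14e_an Pool.Agent.MPdeb14eM

namespace BM939

private theorem crit_ball {m : ℕ} {t : ℝ} (ht : 0 < t) :
    ball (0 : E (m + 1)) t = t • ball (0 : E (m + 1)) 1 := by
  rw [_root_.smul_ball ht.ne', smul_zero, Real.norm_of_nonneg ht.le, mul_one]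

private theorem crit_exp {m : ℕ} (hm : 1 ≤ m) :
    (m + 1) * ((m + 1 - 2) * (m + 1 + 1)) + 2 + m = m * ((m + 1) ^ 2 - 1) := by
  obtain ⟨k, rfl⟩ : ∃ k, m = k + 1 := ⟨m - 1, by omega⟩
  have e1 : k + 1 + 1 - 2 = k := by omega
  have e2 : (k + 1 + 1) ^ 2 - 1 = (k + 1) * (k + 3) := by
    have : (k + 1 + 1) ^ 2 = (k + 1) * (k + 3) + 1 := by ring
    omega
  rw [e1, e2]
  ring

/-- The perimeter of a ball. PROOF: `bd_smul`, `bd_ball`, `Main_bd_zero`, `perimeter_eq`, as in `main_unit`. -/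
theorem perimeter_ball {m : ℕ} {t : ℝ} (ht : 0 < t) : perimeter (m + 1) (ball (0 : E (m + 1)) t) =
    hausdorffConst m * kap m * (m + 1) * vb (m + 1) * t ^ m := by
  have h1 : (0 : ℝ) ≤ kap m * (m + 1) * vb (m + 1) := by
    have := kap_pos m
    have := vb_pos (m + 1)
    positivity
  rw [perimeter_eq, ← Main_bd_zero, crit_ball ht, bd_smul _ ht, bd_ball, ENNReal.toReal_mul,
    ENNReal.toReal_ofReal (by positivity), ENNReal.toReal_ofReal h1, add_zero]
  ring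

theorem vol_ball {m : ℕ} {t : ℝ} (ht : 0 < t) : (volume (ball (0 : E (m + 1)) t)).toReal =
    vb (m + 1) * t ^ (m + 1) := by
  rw [← Main_mom_zero, crit_ball ht, mom_smul _ ht, ENNReal.toReal_mul,
    ENNReal.toReal_ofReal (by positivity), Main_mom_zero, add_zero, mul_comm]
  rfl

/-- PROOF: `momentum Ω 0 ≤ τ ^ 2 P_B (P / P_B) ^ N` gives
`calF Ω ≤ V ^ k / P ^ N * momentum Ω 0 ≤ V ^ k * τ ^ 2 * P_B / P_B ^ N`, with `V = vb * τ ^ (m + 1)`,
`P_B = κ (m + 1) vb τ ^ m`, `κ = hausdorffConst * kap`; all powers of `τ` cancel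
(`(m + 1) k + 2 + m - m N = 0` for `k = (m - 1) (m + 2)`, `N = (m + 1) ^ 2 - 1`), and this is at most
`calF (ball 0 1) = calF (ball c r)` as in `main_unit` (`momentum_ball_ge`, `calF_ball`). -/
theorem crit {m : ℕ} (hm : 2 ≤ m) {Ω : Set (E (m + 1))} (hΩ : ConvexDomain Ω) {t : ℝ} (ht : 0 < t)
    (hvol : volume (ball (0 : E (m + 1)) t) = volume Ω)
    (hM : momentum Ω 0 ≤ t ^ 2 * perimeter (m + 1) (ball (0 : E (m + 1)) t) *
      (perimeter (m + 1) Ω / perimeter (m + 1) (ball (0 : E (m + 1)) t)) ^ ((m + 1) ^ 2 - 1))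
    (c : E (m + 1)) {r : ℝ} (hr : 0 < r) : calF Ω ≤ calF (ball c r) := by
  have hh : 0 < hausdorffConst (m : ℝ) := hausdorffConst_pos (Nat.cast_nonneg m)
  have hk : 0 < kap m := kap_pos m
  have hω : 0 < vb (m + 1) := vb_pos (m + 1)
  obtain ⟨P1, hP1⟩ : ∃ P1, P1 = hausdorffConst m * kap m * (m + 1) * vb (m + 1) := ⟨_, rfl⟩
  have hP1p : 0 < P1 := by rw [hP1]; positivity
  have hPt : perimeter (m + 1) (ball (0 : E (m + 1)) t) = P1 * t ^ m := by
    rw [perimeter_ball ht, hP1]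
  have hPb : perimeter (m + 1) (ball (0 : E (m + 1)) 1) = P1 := by
    rw [perimeter_ball one_pos, hP1, one_pow, mul_one]
  have hVb : (volume (ball (0 : E (m + 1)) 1)).toReal = vb (m + 1) := rfl
  have hV : (volume Ω).toReal = vb (m + 1) * t ^ (m + 1) := by
    rw [← hvol, vol_ball ht]
  have hP : 0 < perimeter (m + 1) Ω := perimeter_pos hΩ
  have h0 : ⨅ x₀ : E (m + 1), momentum Ω x₀ ≤ momentum Ω 0 :=
    ciInf_le ⟨0, by rintro _ ⟨x, rfl⟩; exact Main_momentum_nonneg Ω x⟩ 0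
  have hb : perimeter (m + 1) (ball (0 : E (m + 1)) 1) ≤
      ⨅ x₀ : E (m + 1), momentum (ball (0 : E (m + 1)) 1) x₀ :=
    le_ciInf fun x₀ => momentum_ball_ge x₀
  rw [calF_ball (by omega) c 0 hr one_pos]
  unfold calF
  rw [hVb, hV]
  rw [hPb] at hb ⊢
  rw [hPt] at hM
  have hexp := crit_exp (m := m) (by omega)
  obtain ⟨k, hkd⟩ : ∃ k, k = (m + 1 - 2) * (m + 1 + 1) := ⟨_, rfl⟩
  obtain ⟨N, hNd⟩ : ∃ N, N = (m + 1) ^ 2 - 1 := ⟨_, rfl⟩
  rw [← hkd, ← hNd] at hexp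
  rw [← hNd] at hM
  rw [← hkd, ← hNd]
  have hT : (t ^ (m + 1)) ^ k * t ^ 2 * t ^ m = (t ^ m) ^ N := by
    rw [← pow_mul, ← pow_mul, ← pow_add, ← pow_add, hexp]
  calc (vb (m + 1) * t ^ (m + 1)) ^ k / perimeter (m + 1) Ω ^ N *
        ⨅ x₀ : E (m + 1), momentum Ω x₀
      ≤ (vb (m + 1) * t ^ (m + 1)) ^ k / perimeter (m + 1) Ω ^ N * momentum Ω 0 :=
        mul_le_mul_of_nonneg_left h0 (by positivity)
    _ ≤ (vb (m + 1) * t ^ (m + 1)) ^ k / perimeter (m + 1) Ω ^ N *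
          (t ^ 2 * (P1 * t ^ m) * (perimeter (m + 1) Ω / (P1 * t ^ m)) ^ N) :=
        mul_le_mul_of_nonneg_left hM (by positivity)
    _ = vb (m + 1) ^ k / P1 ^ N * P1 := by
        rw [div_pow, mul_pow P1, mul_pow (vb (m + 1)), ← hT]
        have ha : (t ^ (m + 1)) ^ k ≠ 0 := by positivity
        have hbm : t ^ m ≠ 0 := by positivity
        have hPN : perimeter (m + 1) Ω ^ N ≠ 0 := by positivity
        have hP1N : P1 ^ N ≠ 0 := by positivity
        generalize (t ^ (m + 1)) ^ k = a at *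
        generalize t ^ m = b at *
        generalize perimeter (m + 1) Ω ^ N = q at *
        generalize P1 ^ N = z at *
        field_simp
    _ ≤ _ := mul_le_mul_of_nonneg_left hb (by positivity)

/-- PROOF: `‖x‖ ≤ R` on the frontier. -/
theorem momentum_le_sq {m : ℕ} {Ω : Set (E (m + 1))} (hΩ : ConvexDomain Ω) {R : ℝ} (hR : ∀ x ∈ Ω, ‖x‖ ≤ R) :
    momentum Ω 0 ≤ R ^ 2 * perimeter (m + 1) Ω := by
  have hh : 0 < hausdorffConst (m : ℝ) := hausdorffConst_pos (Nat.cast_nonneg m)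
  have hfin := frontier_lt_top hΩ
  have hcl : ∀ x ∈ frontier Ω, ‖x‖ ≤ R := by
    intro x hx
    have h1 : closure Ω ⊆ closedBall 0 R :=
      closure_minimal (fun y hy => mem_closedBall_zero_iff.2 (hR y hy)) isClosed_closedBall
    exact mem_closedBall_zero_iff.1 (h1 (frontier_subset_closure hx))
  have h1 : bd 2 Ω ≤ ENNReal.ofReal (R ^ 2) *
      (Measure.hausdorffMeasure (m : ℝ) : Measure (E (m + 1))) (frontier Ω) := by
    unfold bd
    rw [← setLIntegral_const]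
    exact setLIntegral_mono measurable_const fun x hx =>
      ENNReal.ofReal_le_ofReal (pow_le_pow_left₀ (norm_nonneg _) (hcl x hx) 2)
  have h2 := ENNReal.toReal_mono (ENNReal.mul_lt_top ENNReal.ofReal_lt_top hfin).ne h1
  rw [ENNReal.toReal_mul, ENNReal.toReal_ofReal (sq_nonneg R)] at h2
  rw [Main_momentum_zero, perimeter_eq]
  calc hausdorffConst m * (bd 2 Ω).toReal
      ≤ hausdorffConst m * (R ^ 2 *
          (Measure.hausdorffMeasure (m : ℝ) (frontier Ω)).toReal) :=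
        mul_le_mul_of_nonneg_left h2 hh.le
    _ = _ := by ring

end BM939
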