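import Pool.Agent.Lib.MP_939ffc_anG.PolyE
import Pool.Agent.Lib.MP_939ffc_anC.Upper

/-!
# MP_939ffc_an: a second order upper bound of the momentum
-/

open MeasureTheory Set Metric Filter Topology
open scoped ENNReal NNReal Pointwise
open Pool.Agent.Lib.MP_deb14e_an Pool.Agent.MPdeb14eM

namespace BM939

private theorem genE_sep {n : ℕ} {Ω : Set (E n)} (hΩ : ConvexDomain Ω) (h0 : (0 : E n) ∈ Ω)
    {x : E n} (hx : x ∈ frontier Ω) :
    ∃ a : E n, (∀ y ∈ Ω, (inner ℝ a y : ℝ) < 1) ∧ 1 ≤ (inner ℝ a x : ℝ) := by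
  have hxn : x ∉ Ω := by
    intro h
    rw [hΩ.2.2.1.frontier_eq] at hx
    exact hx.2 h
  obtain ⟨f, hf⟩ := geometric_hahn_banach_open_point hΩ.2.2.2 hΩ.2.2.1 hxn
  have hfx : 0 < f x := by
    have := hf 0 h0
    rwa [map_zero] at this
  have hin : ∀ y : E n, (inner ℝ ((f x)⁻¹ • (InnerProductSpace.toDual ℝ (E n)).symm f) y : ℝ) =
      (f x)⁻¹ * f y := by
    intro y
    rw [real_inner_smul_left, InnerProductSpace.toDual_symm_apply]
  refine ⟨(f x)⁻¹ • (InnerProductSpace.toDual ℝ (E n)).symm f, fun y hy => ?_, ?_⟩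
  · rw [hin, inv_mul_lt_iff₀ hfx, mul_one]
    exact hf y hy
  · rw [hin, inv_mul_cancel₀ hfx.ne']

private theorem genE_lim (p : ℕ) (c : ℝ≥0∞) (hc : c ≠ ⊤) (b : ℝ≥0∞) :
    Tendsto (fun k : ℕ => c * (ENNReal.ofReal ((1 + 1 / ((k : ℝ) + 1)) ^ p) * b)) atTop
      (𝓝 (c * b)) := by
  have h1 : Tendsto (fun k : ℕ => ENNReal.ofReal ((1 + 1 / ((k : ℝ) + 1)) ^ p)) atTop (𝓝 1) := by
    have h2 : Tendsto (fun k : ℕ => (1 + 1 / ((k : ℝ) + 1)) ^ p) atTop (𝓝 1) := by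
      have h3 := (tendsto_one_div_add_atTop_nhds_zero_nat (𝕜 := ℝ)).const_add 1
      have h4 := h3.pow p
      rwa [add_zero, one_pow] at h4
    have h5 := (ENNReal.continuous_ofReal.tendsto 1).comp h2
    rw [ENNReal.ofReal_one] at h5
    exact h5
  have h6 := ENNReal.Tendsto.mul_const h1 (b := b) (Or.inl one_ne_zero)
  rw [one_mul] at h6
  exact ENNReal.Tendsto.const_mul h6 (Or.inr hc)

/-- Collects the powers of `1 + ε`. -/
private theorem genE_col {c X : ℝ} (hc : 0 ≤ c) (hX : 0 ≤ X) (i j : ℕ) (b : ℝ≥0∞) :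
    ENNReal.ofReal (c ^ i * X) * (ENNReal.ofReal (c ^ j) * b) =
      ENNReal.ofReal X * (ENNReal.ofReal (c ^ (i + j)) * b) := by
  rw [← mul_assoc, ← mul_assoc, ← ENNReal.ofReal_mul (by positivity),
    ← ENNReal.ofReal_mul hX]
  congr 2
  rw [pow_add]
  ring

/-- PROOF: for `ε > 0` take `S` with `Ω ⊆ poly S ⊆ (1 + ε) • Ω` (`exists_poly`, as in `bd_le`, Upper.lean), apply `polyE`
with `(1 + ε) * R`, and `bd 2 Ω ≤ bd 2 (poly S)`, `mom p Ω ≤ mom p (poly S)` for `p = 0, 3`,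
`bd 0 (poly S) ≤ (1 + ε) ^ m * bd 0 Ω`, `mom p (poly S) ≤ (1 + ε) ^ (m + 1 + p) * mom p Ω` for `p = 1, 2` (`bd_mono`,
`bd_smul`, `mom_smul`), and let `ε → 0`. -/
theorem genE {m : ℕ} {Ω : Set (E (m + 1))} (hΩ : ConvexDomain Ω) (h0 : (0 : E (m + 1)) ∈ Ω) {R : ℝ}
    (hR : 0 < R) (hΩR : ∀ x ∈ Ω, ‖x‖ ≤ R) :
    ENNReal.ofReal (R ^ 2) * bd 2 Ω + ENNReal.ofReal (2 * R ^ 3 * (kap m * (m + 1))) * mom 0 Ω +
        ENNReal.ofReal (kap m * (m + 4)) * mom 3 Ω ≤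
      ENNReal.ofReal (R ^ 4) * bd 0 Ω + ENNReal.ofReal (R ^ 2 * (kap m * (m + 2))) * mom 1 Ω +
        ENNReal.ofReal (2 * R * (kap m * (m + 3))) * mom 2 Ω := by
  have hkap := (kap_pos m).le
  have key : ∀ ε : ℝ, 0 < ε → ENNReal.ofReal (R ^ 2) * bd 2 Ω +
        ENNReal.ofReal (2 * R ^ 3 * (kap m * (m + 1))) * mom 0 Ω +
        ENNReal.ofReal (kap m * (m + 4)) * mom 3 Ω ≤
      ENNReal.ofReal (R ^ 4) * (ENNReal.ofReal ((1 + ε) ^ (4 + (m + 0))) * bd 0 Ω) +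
        ENNReal.ofReal (R ^ 2 * (kap m * (m + 2))) *
          (ENNReal.ofReal ((1 + ε) ^ (2 + (m + 1 + 1))) * mom 1 Ω) +
        ENNReal.ofReal (2 * R * (kap m * (m + 3))) *
          (ENNReal.ofReal ((1 + ε) ^ (1 + (m + 1 + 2))) * mom 2 Ω) := by
    intro ε hε
    have hc : (0 : ℝ) < 1 + ε := by linarith
    have hc1 : (1 : ℝ) ≤ 1 + ε := by linarith
    obtain ⟨S, hSA, hS1, hS2⟩ := exists_poly hΩ h0 (A := {a | ∀ y ∈ Ω, (inner ℝ a y : ℝ) < 1})
      (fun a ha => ha) (fun x hx => genE_sep hΩ h0 hx) hε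
    have hΩ2 : ConvexDomain ((1 + ε) • Ω) :=
      ⟨hΩ.1.smul_set, hΩ.2.1.smul₀ (1 + ε), hΩ.2.2.1.smul₀ hc.ne', hΩ.2.2.2.smul (1 + ε)⟩
    have hpoly : ConvexDomain (poly S) :=
      ⟨⟨0, zero_mem_poly S⟩, hΩ2.2.1.subset hS2, isOpen_poly S, convex_poly S⟩
    have hRR : R ≤ (1 + ε) * R := by nlinarith
    have hSR : ∀ x ∈ poly S, ‖x‖ ≤ (1 + ε) * R := by
      intro x hx
      obtain ⟨y, hy, rfl⟩ := hS2 hx
      show ‖(1 + ε) • y‖ ≤ (1 + ε) * R
      rw [norm_smul, Real.norm_of_nonneg hc.le]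
      exact mul_le_mul_of_nonneg_left (hΩR y hy) hc.le
    have hb0 : bd 0 (poly S) ≤ ENNReal.ofReal ((1 + ε) ^ (m + 0)) * bd 0 Ω := by
      rw [← bd_smul Ω hc]
      exact bd_mono hpoly hΩ2 (zero_mem_poly S) hS2
    have hm : ∀ p, mom p (poly S) ≤ ENNReal.ofReal ((1 + ε) ^ (m + 1 + p)) * mom p Ω := by
      intro p
      rw [← mom_smul Ω hc]
      exact lintegral_mono_set hS2
    have hmono : ∀ p, mom p Ω ≤ mom p (poly S) := fun p => lintegral_mono_set hS1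
    calc ENNReal.ofReal (R ^ 2) * bd 2 Ω + ENNReal.ofReal (2 * R ^ 3 * (kap m * (m + 1))) * mom 0 Ω +
          ENNReal.ofReal (kap m * (m + 4)) * mom 3 Ω
        ≤ ENNReal.ofReal (((1 + ε) * R) ^ 2) * bd 2 (poly S) +
            ENNReal.ofReal (2 * ((1 + ε) * R) ^ 3 * (kap m * (m + 1))) * mom 0 (poly S) +
            ENNReal.ofReal (kap m * (m + 4)) * mom 3 (poly S) := by
          gcongr
          · exact bd_mono hΩ hpoly h0 hS1
          · exact hmono 0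
          · exact hmono 3
      _ ≤ ENNReal.ofReal (((1 + ε) * R) ^ 4) * bd 0 (poly S) +
            ENNReal.ofReal (((1 + ε) * R) ^ 2 * (kap m * (m + 2))) * mom 1 (poly S) +
            ENNReal.ofReal (2 * ((1 + ε) * R) * (kap m * (m + 3))) * mom 2 (poly S) :=
          polyE (mul_pos hc hR) hSR
      _ ≤ ENNReal.ofReal (((1 + ε) * R) ^ 4) * (ENNReal.ofReal ((1 + ε) ^ (m + 0)) * bd 0 Ω) +
            ENNReal.ofReal (((1 + ε) * R) ^ 2 * (kap m * (m + 2))) *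
              (ENNReal.ofReal ((1 + ε) ^ (m + 1 + 1)) * mom 1 Ω) +
            ENNReal.ofReal (2 * ((1 + ε) * R) * (kap m * (m + 3))) *
              (ENNReal.ofReal ((1 + ε) ^ (m + 1 + 2)) * mom 2 Ω) := by
          gcongr
          · exact hm 1
          · exact hm 2
      _ = _ := by
          have e1 : ((1 + ε) * R) ^ 4 = (1 + ε) ^ 4 * R ^ 4 := by ring
          have e2 : ((1 + ε) * R) ^ 2 * (kap m * (m + 2)) =
              (1 + ε) ^ 2 * (R ^ 2 * (kap m * (m + 2))) := by ring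
          have e3 : 2 * ((1 + ε) * R) * (kap m * (m + 3)) =
              (1 + ε) ^ 1 * (2 * R * (kap m * (m + 3))) := by ring
          rw [e1, e2, e3, genE_col hc.le (by positivity), genE_col hc.le (by positivity),
            genE_col hc.le (by positivity)]
  have hlim := ((genE_lim (4 + (m + 0)) (ENNReal.ofReal (R ^ 4)) ENNReal.ofReal_ne_top (bd 0 Ω)).add
    (genE_lim (2 + (m + 1 + 1)) (ENNReal.ofReal (R ^ 2 * (kap m * (m + 2)))) ENNReal.ofReal_ne_top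
      (mom 1 Ω))).add
    (genE_lim (1 + (m + 1 + 2)) (ENNReal.ofReal (2 * R * (kap m * (m + 3)))) ENNReal.ofReal_ne_top
      (mom 2 Ω))
  exact ge_of_tendsto hlim (Eventually.of_forall fun k => key _ (by positivity))

end BM939
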