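import Pool.Agent.Lib.MP_939ffc_anG.GenE
import Pool.Agent.Lib.MP_939ffc_anG.Crit

/-!
# MP_939ffc_an: the isoperimetric criteria
-/

open MeasureTheory Set Metric Filter Topology
open scoped ENNReal NNReal Pointwise
open Pool.Agent.Lib.MP_deb14e_an Pool.Agent.MPdeb14eM

namespace BM939

/-- The mean of `‖x‖ ^ j` over `Ω`. -/
noncomputable def meanPow {n : ℕ} (j : ℕ) (Ω : Set (E n)) : ℝ :=
  (∫ x in Ω, ‖x‖ ^ j) / (volume Ω).toReal

/-- The upper bound of the momentum about the origin of a convex set in the ball of radius `R` with the volume of a ball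
of radius `t`. -/
noncomputable def upperMom {n : ℕ} (Ω : Set (E n)) (R t : ℝ) : ℝ :=
  R ^ 2 * perimeter n Ω - t * perimeter n (ball (0 : E n) t) *
    (2 * R - (n + 1) / n * meanPow 1 Ω - 2 * (n + 2) / (n * R) * meanPow 2 Ω +
      (n + 3) / (n * R ^ 2) * meanPow 3 Ω)

private theorem main8_pos {m : ℕ} {Ω : Set (E (m + 1))} (hΩ : ConvexDomain Ω) {R : ℝ}
    (hR : ∀ x ∈ Ω, ‖x‖ ≤ R) : 0 < R := by
  by_contra hcon
  push Not at hcon
  have h1 : Ω ⊆ {0} := fun x hx => by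
    have := hR x hx
    rw [mem_singleton_iff, ← norm_le_zero_iff]
    linarith
  have h2 : 0 < volume Ω := hΩ.2.2.1.measure_pos _ hΩ.1
  have h3 := measure_mono (μ := volume) h1
  rw [measure_singleton] at h3
  exact absurd h2 (not_lt.2 h3)

private theorem main8_mom_real {n : ℕ} (p : ℕ) (Ω : Set (E n)) : (mom p Ω).toReal = ∫ x in Ω, ‖x‖ ^ p := by
  unfold mom
  rw [integral_eq_lintegral_of_nonneg_ae (Eventually.of_forall fun x => by positivity) (by fun_prop)]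

private theorem main8_mom_lt {n : ℕ} (p : ℕ) {Ω : Set (E n)} (hΩ : ConvexDomain Ω) : mom p Ω < ⊤ := by
  obtain ⟨R, hR0, hR⟩ := hΩ.2.1.exists_pos_norm_le
  unfold mom
  refine (setLIntegral_mono (g := fun _ => ENNReal.ofReal (R ^ p)) measurable_const
    fun x hx => ENNReal.ofReal_le_ofReal
      (pow_le_pow_left₀ (norm_nonneg _) (hR x hx) p)).trans_lt ?_
  rw [setLIntegral_const]
  exact ENNReal.mul_lt_top ENNReal.ofReal_lt_top hΩ.2.1.measure_lt_top

private theorem main8_arith {κ k R V B2 B0 M1 M2 M3 n : ℝ} (hκ : 0 < κ) (hR : 0 < R) (hV : 0 < V)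
    (hn : 0 < n)
    (h : R ^ 2 * B2 + 2 * R ^ 3 * (k * n) * V + k * (n + 3) * M3 ≤
      R ^ 4 * B0 + R ^ 2 * (k * (n + 1)) * M1 + 2 * R * (k * (n + 2)) * M2) :
    κ * B2 ≤ R ^ 2 * (κ * B0) - κ * k * n * V *
      (2 * R - (n + 1) / n * (M1 / V) - 2 * (n + 2) / (n * R) * (M2 / V) +
        (n + 3) / (n * R ^ 2) * (M3 / V)) := by
  have h2 : κ * B2 = κ * (R ^ 2 * B2) / R ^ 2 := by field_simp
  have h3 : R ^ 2 * (κ * B0) - κ * k * n * V *
      (2 * R - (n + 1) / n * (M1 / V) - 2 * (n + 2) / (n * R) * (M2 / V) +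
        (n + 3) / (n * R ^ 2) * (M3 / V)) =
      κ * (R ^ 4 * B0 + R ^ 2 * (k * (n + 1)) * M1 + 2 * R * (k * (n + 2)) * M2 -
        2 * R ^ 3 * (k * n) * V - k * (n + 3) * M3) / R ^ 2 := by
    field_simp
    ring
  rw [h2, h3]
  apply div_le_div_of_nonneg_right _ (by positivity)
  apply mul_le_mul_of_nonneg_left _ hκ.le
  linarith

/-- The real form of `genE`. -/
theorem main8_mom {m : ℕ} {Ω : Set (E (m + 1))} (hΩ : ConvexDomain Ω) (h0 : (0 : E (m + 1)) ∈ Ω) {R : ℝ}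
    (hR : ∀ x ∈ Ω, ‖x‖ ≤ R) {t : ℝ} (ht : 0 < t) (hvol : volume (ball (0 : E (m + 1)) t) = volume Ω) :
    momentum Ω 0 ≤ upperMom Ω R t := by
  have hR0 : 0 < R := main8_pos hΩ hR
  have hh : 0 < hausdorffConst (m : ℝ) := hausdorffConst_pos (Nat.cast_nonneg m)
  have hk : 0 < kap m := kap_pos m
  have hΩfin : volume Ω < ⊤ := hΩ.2.1.measure_lt_top
  have hV : 0 < (volume Ω).toReal :=
    ENNReal.toReal_pos (hΩ.2.2.1.measure_pos _ hΩ.1).ne' hΩfin.ne
  have hfin := frontier_lt_top hΩ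
  have hg := genE hΩ h0 hR0 hR
  have hM1 := main8_mom_lt 1 hΩ
  have hM2 := main8_mom_lt 2 hΩ
  have hM3 := main8_mom_lt 3 hΩ
  have hB0 : bd 0 Ω < ⊤ := by rw [Main_bd_zero]; exact hfin
  have hr1 : ENNReal.ofReal (R ^ 4) * bd 0 Ω < ⊤ := ENNReal.mul_lt_top ENNReal.ofReal_lt_top hB0
  have hr2 : ENNReal.ofReal (R ^ 2 * (kap m * (m + 2))) * mom 1 Ω < ⊤ :=
    ENNReal.mul_lt_top ENNReal.ofReal_lt_top hM1
  have hr3 : ENNReal.ofReal (2 * R * (kap m * (m + 3))) * mom 2 Ω < ⊤ :=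
    ENNReal.mul_lt_top ENNReal.ofReal_lt_top hM2
  have hr12 := ENNReal.add_lt_top.2 ⟨hr1, hr2⟩
  have hRHS := ENNReal.add_lt_top.2 ⟨hr12, hr3⟩
  have hg2 := ENNReal.toReal_mono hRHS.ne hg
  have hL := lt_of_le_of_lt hg hRHS
  rw [ENNReal.add_lt_top] at hL
  have hL1 := hL.1
  rw [ENNReal.add_lt_top] at hL1
  rw [ENNReal.toReal_add hL.1.ne hL.2.ne, ENNReal.toReal_add hL1.1.ne hL1.2.ne,
    ENNReal.toReal_add hr12.ne hr3.ne, ENNReal.toReal_add hr1.ne hr2.ne] at hg2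
  simp only [ENNReal.toReal_mul] at hg2
  rw [ENNReal.toReal_ofReal (by positivity), ENNReal.toReal_ofReal (by positivity),
    ENNReal.toReal_ofReal (by positivity), ENNReal.toReal_ofReal (by positivity),
    ENNReal.toReal_ofReal (by positivity), ENNReal.toReal_ofReal (by positivity), Main_mom_zero,
    main8_mom_real, main8_mom_real, main8_mom_real] at hg2
  have hVt : (volume Ω).toReal = vb (m + 1) * t ^ (m + 1) := by rw [← hvol]; exact vol_ball ht
  have hPB : t * perimeter (m + 1) (ball (0 : E (m + 1)) t) =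
      hausdorffConst m * kap m * (m + 1) * (volume Ω).toReal := by
    rw [perimeter_ball ht, hVt]; ring
  have hPe : perimeter (m + 1) Ω = hausdorffConst m * (bd 0 Ω).toReal := by
    rw [perimeter_eq, Main_bd_zero]
  have hkey := main8_arith (κ := hausdorffConst m) (k := kap m) (R := R) (V := (volume Ω).toReal)
    (B2 := (bd 2 Ω).toReal) (B0 := (bd 0 Ω).toReal) (M1 := ∫ x in Ω, ‖x‖ ^ 1)
    (M2 := ∫ x in Ω, ‖x‖ ^ 2) (M3 := ∫ x in Ω, ‖x‖ ^ 3) (n := (m : ℝ) + 1)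
    hh hR0 hV (by positivity) (by
      have e1 : (m : ℝ) + 1 + 1 = m + 2 := by ring
      have e2 : (m : ℝ) + 1 + 2 = m + 3 := by ring
      have e3 : (m : ℝ) + 1 + 3 = m + 4 := by ring
      rw [e1, e2, e3]; exact hg2)
  unfold upperMom meanPow
  rw [Main_momentum_zero, hPe, hPB]
  push_cast
  exact hkey

end BM939
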