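import Pool.Agent.Lib.MP_939ffc_anD.PolyU
import Pool.Agent.Lib.MP_939ffc_anD.PolyL

/-!
# MP_939ffc_an: a second order upper bound of the momentum: polyhedra
-/

open MeasureTheory Set Metric Filter Topology
open scoped ENNReal NNReal Pointwise
open Pool.Agent.Lib.MP_deb14e_an Pool.Agent.MPdeb14eM

namespace BM939

private theorem polyE_facet {m : ℕ} (p : ℕ) (S : Finset (E (m + 1))) {a : E (m + 1)} (ha : a ≠ 0) :
    ∫⁻ x in facet S a, ENNReal.ofReal (‖x‖ ^ p) ∂(Measure.hausdorffMeasure (m : ℝ)) =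
      ENNReal.ofReal (kap m * (m + 1 + p) * ‖a‖) * mom p (coneOn (facet S a)) := by
  have hn : 0 < ‖a‖ := norm_pos_iff.2 ha
  have hu : ‖(‖a‖⁻¹ • a : E (m + 1))‖ = 1 := by
    rw [norm_smul, norm_inv, norm_norm, inv_mul_cancel₀ hn.ne']
  rw [cone_formula p hu (inv_pos.2 hn) (isClosed_facet S a).measurableSet
    (fun x hx => by rw [real_inner_smul_left, hx.1, mul_one]), div_inv_eq_mul]
  rfl

private theorem polyE_norm {m : ℕ} {S : Finset (E (m + 1))} {R : ℝ}
    (hS : ∀ x ∈ poly S, ‖x‖ ≤ R) {a : E (m + 1)} (ha : a ∈ S) : ∀ x ∈ facet S a, ‖x‖ ≤ R := by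
  intro x hx
  have h1 : x ∈ closure (poly S) := frontier_subset_closure (facet_subset_frontier ha hx)
  have h2 : closure (poly S) ⊆ {x : E (m + 1) | ‖x‖ ≤ R} :=
    closure_minimal hS (isClosed_le continuous_norm continuous_const)
  exact h2 h1

private theorem polyE_bdd {m : ℕ} {S : Finset (E (m + 1))} {R : ℝ}
    (hS : ∀ x ∈ poly S, ‖x‖ ≤ R) : Bornology.IsBounded (poly S) :=
  (isBounded_iff_forall_norm_le).2 ⟨R, hS⟩

private theorem polyE_fin {m : ℕ} {S : Finset (E (m + 1))} {R : ℝ} (p : ℕ)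
    (hS : ∀ x ∈ poly S, ‖x‖ ≤ R) {a : E (m + 1)} (ha : a ∈ S) :
    mom p (coneOn (facet S a)) ≠ ⊤ := by
  have h1 : mom p (coneOn (facet S a)) ≤
      ENNReal.ofReal (R ^ p) * volume (coneOn (facet S a)) := by
    unfold mom
    calc ∫⁻ x in coneOn (facet S a), ENNReal.ofReal (‖x‖ ^ p)
        ≤ ∫⁻ _ in coneOn (facet S a), ENNReal.ofReal (R ^ p) := by
          refine setLIntegral_mono' (measurableSet_coneOn_facet S a) fun x hx => ?_
          exact ENNReal.ofReal_le_ofReal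
            (pow_le_pow_left₀ (norm_nonneg _) (hS x (coneOn_facet_subset ha hx)) p)
      _ = ENNReal.ofReal (R ^ p) * volume (coneOn (facet S a)) := setLIntegral_const _ _
  refine ne_top_of_le_ne_top (ENNReal.mul_ne_top ENNReal.ofReal_ne_top ?_) h1
  exact ne_of_lt (lt_of_le_of_lt (measure_mono (coneOn_facet_subset ha))
    (polyE_bdd hS).measure_lt_top)

private theorem polyE_point {R N s : ℝ} (hR : 0 < R) (hN : 0 < N) (hs0 : 0 ≤ s) (hs : s ≤ R)
    (h1 : 1 ≤ N * s) :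
    R ^ 2 * N * s ^ 2 + 2 * R ^ 3 * s ^ 0 + s ^ 3 ≤
      R ^ 4 * N * s ^ 0 + R ^ 2 * s ^ 1 + 2 * R * s ^ 2 := by
  have hs1 : 0 < s := by
    rcases hs0.lt_or_eq with h | h
    · exact h
    · rw [← h, mul_zero] at h1
      linarith
  have h2 : 2 * R - s ≤ R ^ 2 * N := by
    have h3 : (2 * R - s) * s ≤ R ^ 2 * N * s := by
      nlinarith [sq_nonneg (R - s), mul_le_mul_of_nonneg_left h1 (sq_nonneg R)]
    exact le_of_mul_le_mul_right h3 hs1
  have h4 : 0 ≤ (R ^ 2 - s ^ 2) * (R ^ 2 * N - (2 * R - s)) := by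
    refine mul_nonneg ?_ (by linarith)
    nlinarith
  nlinarith [h4]

private theorem polyE_term {m : ℕ} {S : Finset (E (m + 1))} {R : ℝ} (hR : 0 < R)
    (hS : ∀ x ∈ poly S, ‖x‖ ≤ R) {a : E (m + 1)} (ha : a ∈ S) :
    ENNReal.ofReal (R ^ 2) * (ENNReal.ofReal (kap m * (m + 1 + (2 : ℕ)) * ‖a‖) *
        mom 2 (coneOn (facet S a))) +
      ENNReal.ofReal (2 * R ^ 3 * (kap m * (m + 1))) * mom 0 (coneOn (facet S a)) +
      ENNReal.ofReal (kap m * (m + 4)) * mom 3 (coneOn (facet S a)) ≤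
      ENNReal.ofReal (R ^ 4) * (ENNReal.ofReal (kap m * (m + 1 + (0 : ℕ)) * ‖a‖) *
        mom 0 (coneOn (facet S a))) +
      ENNReal.ofReal (R ^ 2 * (kap m * (m + 2))) * mom 1 (coneOn (facet S a)) +
      ENNReal.ofReal (2 * R * (kap m * (m + 3))) * mom 2 (coneOn (facet S a)) := by
  have hk : 0 < kap m := kap_pos m
  rcases (facet S a).eq_empty_or_nonempty with he | ⟨x, hx⟩
  · have h1 : coneOn (facet S a) = ∅ := by
      rw [he]
      ext x
      simp only [mem_empty_iff_false, iff_false]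
      rintro ⟨s, -, y, hy, -⟩
      exact hy
    have h2 : ∀ p, mom p (∅ : Set (E (m + 1))) = 0 := fun p => by
      unfold mom
      rw [Measure.restrict_empty, lintegral_zero_measure]
    rw [h1, h2, h2, h2, h2]
    simp
  have ha0 : a ≠ 0 := by
    rintro rfl
    have h1 := hx.1
    rw [inner_zero_left] at h1
    exact zero_ne_one h1
  have hn : 0 < ‖a‖ := norm_pos_iff.2 ha0
  have hmeas : ∀ p : ℕ, Measurable fun x : E (m + 1) => ENNReal.ofReal (‖x‖ ^ p) := fun p =>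
    ENNReal.measurable_ofReal.comp (measurable_norm.pow_const p)
  have hint : ENNReal.ofReal (R ^ 2 * ‖a‖) *
        ∫⁻ x in facet S a, ENNReal.ofReal (‖x‖ ^ 2) ∂(Measure.hausdorffMeasure (m : ℝ)) +
      ENNReal.ofReal (2 * R ^ 3) *
        ∫⁻ x in facet S a, ENNReal.ofReal (‖x‖ ^ 0) ∂(Measure.hausdorffMeasure (m : ℝ)) +
        ∫⁻ x in facet S a, ENNReal.ofReal (‖x‖ ^ 3) ∂(Measure.hausdorffMeasure (m : ℝ)) ≤
      ENNReal.ofReal (R ^ 4 * ‖a‖) *
        ∫⁻ x in facet S a, ENNReal.ofReal (‖x‖ ^ 0) ∂(Measure.hausdorffMeasure (m : ℝ)) +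
      ENNReal.ofReal (R ^ 2) *
        ∫⁻ x in facet S a, ENNReal.ofReal (‖x‖ ^ 1) ∂(Measure.hausdorffMeasure (m : ℝ)) +
      ENNReal.ofReal (2 * R) *
        ∫⁻ x in facet S a, ENNReal.ofReal (‖x‖ ^ 2) ∂(Measure.hausdorffMeasure (m : ℝ)) := by
    rw [← lintegral_const_mul' _ _ ENNReal.ofReal_ne_top,
      ← lintegral_const_mul' _ _ ENNReal.ofReal_ne_top,
      ← lintegral_const_mul' _ _ ENNReal.ofReal_ne_top,
      ← lintegral_const_mul' _ _ ENNReal.ofReal_ne_top,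
      ← lintegral_const_mul' _ _ ENNReal.ofReal_ne_top,
      ← lintegral_add_left ((hmeas 2).const_mul _), ← lintegral_add_right _ (hmeas 3),
      ← lintegral_add_left ((hmeas 0).const_mul _),
      ← lintegral_add_right _ ((hmeas 2).const_mul _)]
    refine setLIntegral_mono' (isClosed_facet S a).measurableSet fun y hy => ?_
    have hyR := polyE_norm hS ha y hy
    have hy1 : 1 ≤ ‖a‖ * ‖y‖ := by
      have h1 : (inner ℝ a y : ℝ) ≤ ‖a‖ * ‖y‖ := real_inner_le_norm a y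
      rwa [hy.1] at h1
    have hy0 := norm_nonneg y
    rw [← ENNReal.ofReal_mul (by positivity), ← ENNReal.ofReal_mul (by positivity),
      ← ENNReal.ofReal_mul (by positivity), ← ENNReal.ofReal_mul (by positivity),
      ← ENNReal.ofReal_mul (by positivity),
      ← ENNReal.ofReal_add (by positivity) (by positivity),
      ← ENNReal.ofReal_add (by positivity) (by positivity),
      ← ENNReal.ofReal_add (by positivity) (by positivity),
      ← ENNReal.ofReal_add (by positivity) (by positivity)]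
    exact ENNReal.ofReal_le_ofReal (polyE_point hR hn hy0 hyR hy1)
  rw [polyE_facet 3 S ha0, polyE_facet 2 S ha0, polyE_facet 1 S ha0, polyE_facet 0 S ha0] at hint
  have hq : ∀ p : ℕ, ∃ q : ℝ, 0 ≤ q ∧ mom p (coneOn (facet S a)) = ENNReal.ofReal q := fun p =>
    ⟨_, ENNReal.toReal_nonneg, (ENNReal.ofReal_toReal (polyE_fin p hS ha)).symm⟩
  obtain ⟨q0, hq00, hq0⟩ := hq 0
  obtain ⟨q1, hq10, hq1⟩ := hq 1
  obtain ⟨q2, hq20, hq2⟩ := hq 2
  obtain ⟨q3, hq30, hq3⟩ := hq 3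
  rw [hq0, hq1, hq2, hq3] at hint
  rw [hq0, hq1, hq2, hq3]
  have hm0 : (0 : ℝ) ≤ m := Nat.cast_nonneg m
  have e0 : 0 ≤ kap m * ((m : ℝ) + 1 + (0 : ℕ)) * ‖a‖ := by positivity
  have e1 : 0 ≤ kap m * ((m : ℝ) + 1 + (1 : ℕ)) * ‖a‖ := by positivity
  have e2 : 0 ≤ kap m * ((m : ℝ) + 1 + (2 : ℕ)) * ‖a‖ := by positivity
  have e3 : 0 ≤ kap m * ((m : ℝ) + 1 + (3 : ℕ)) * ‖a‖ := by positivity
  rw [← ENNReal.ofReal_mul e0, ← ENNReal.ofReal_mul e1, ← ENNReal.ofReal_mul e2,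
    ← ENNReal.ofReal_mul e3,
    ← ENNReal.ofReal_mul (by positivity), ← ENNReal.ofReal_mul (by positivity),
    ← ENNReal.ofReal_mul (by positivity), ← ENNReal.ofReal_mul (by positivity),
    ← ENNReal.ofReal_mul (by positivity),
    ← ENNReal.ofReal_add (by positivity) (by positivity),
    ← ENNReal.ofReal_add (by positivity) (by positivity),
    ← ENNReal.ofReal_add (by positivity) (by positivity),
    ← ENNReal.ofReal_add (by positivity) (by positivity),
    ENNReal.ofReal_le_ofReal_iff (by positivity)] at hint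
  rw [← ENNReal.ofReal_mul e0, ← ENNReal.ofReal_mul e2,
    ← ENNReal.ofReal_mul (by positivity), ← ENNReal.ofReal_mul (by positivity),
    ← ENNReal.ofReal_mul (by positivity), ← ENNReal.ofReal_mul (by positivity),
    ← ENNReal.ofReal_mul (by positivity), ← ENNReal.ofReal_mul (by positivity),
    ← ENNReal.ofReal_add (by positivity) (by positivity),
    ← ENNReal.ofReal_add (by positivity) (by positivity),
    ← ENNReal.ofReal_add (by positivity) (by positivity),
    ← ENNReal.ofReal_add (by positivity) (by positivity)]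
  refine ENNReal.ofReal_le_ofReal ?_
  push_cast at hint ⊢
  refine le_of_mul_le_mul_left ?_ hn
  nlinarith [hint]

private theorem polyE_union {α β : Type*} [MeasurableSpace α] (μ : Measure α)
    (s : Finset β) (t : β → Set α) (f : α → ℝ≥0∞) :
    ∫⁻ x in ⋃ b ∈ s, t b, f x ∂μ ≤ ∑ b ∈ s, ∫⁻ x in t b, f x ∂μ := by
  classical
  induction s using Finset.induction_on with
  | empty => simp
  | insert a s ha ih =>
    rw [Finset.sum_insert ha, Finset.set_biUnion_insert]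
    exact (lintegral_union_le f (t a) (⋃ b ∈ s, t b)).trans (by gcongr)

private theorem polyE_momu {m p : ℕ} {S : Finset (E (m + 1))}
    (hb : Bornology.IsBounded (poly S)) :
    mom p (poly S) ≤ ∑ a ∈ S, mom p (coneOn (facet S a)) := by
  have h4 : mom p (poly S) ≤ ∫⁻ x in ({0} ∪ ⋃ a ∈ S, coneOn (facet S a) : Set (E (m + 1))),
      ENNReal.ofReal (‖x‖ ^ p) := lintegral_mono_set (poly_subset_cones hb)
  have h5 : ∫⁻ x in ({0} : Set (E (m + 1))), ENNReal.ofReal (‖x‖ ^ p) = 0 := by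
    rw [Measure.restrict_eq_zero.2 (measure_singleton (0 : E (m + 1))), lintegral_zero_measure]
  have h6 := lintegral_union_le (μ := (volume : Measure (E (m + 1))))
    (fun x => ENNReal.ofReal (‖x‖ ^ p)) {0} (⋃ a ∈ S, coneOn (facet S a))
  rw [h5, zero_add] at h6
  exact h4.trans (h6.trans (polyE_union _ _ _ _))

private theorem polyE_moml {m p : ℕ} (S : Finset (E (m + 1))) :
    ∑ a ∈ S, mom p (coneOn (facet S a)) ≤ mom p (poly S) := by
  have hdisj : Set.Pairwise (↑S : Set (E (m + 1))) (Function.onFun (AEDisjoint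
      (volume : Measure (E (m + 1)))) (fun a => coneOn (facet S a))) := by
    intro a ha b hb' hab
    exact aedisjoint_cones ha hb' hab
  have hmeas : ∀ a ∈ S, NullMeasurableSet (coneOn (facet S a))
      (volume : Measure (E (m + 1))) := fun a _ =>
    (measurableSet_coneOn_facet S a).nullMeasurableSet
  unfold mom
  rw [← lintegral_biUnion_finset₀ hdisj hmeas]
  exact lintegral_mono_set (Set.iUnion₂_subset fun a ha => coneOn_facet_subset ha)

/-- PROOF: for each `a ∈ S` with nonempty facet `F` put `h = 1 / ‖a‖`; on `F` we have `h ≤ ‖x‖ = s ≤ R`, so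
`(R^2 - s^2) * (R^2 - (2 R - s) * h) ≥ 0` (as `(2 R - s) h ≤ (2 R - s) s ≤ R^2`), i.e.
`R^2 s^2 + 2 R^3 h + s^3 h ≤ R^4 + R^2 s h + 2 R s^2 h` (expand; all terms nonnegative). Integrate over the facet and
use `cone_formula`: `∫_F s^p h = k (m+1+p) ∫_cone ‖x‖^p` for `p = 0, 1, 2, 3`, so with `q_p = mom p (coneOn F)`
`R^2 k (m+3) ‖a‖ q_2 + 2 R^3 k (m+1) q_0 + k (m+4) q_3 ≤ R^4 k (m+1) ‖a‖ q_0 + R^2 k (m+2) q_1 + 2 R k (m+3) q_2`.
Sum over `a ∈ S`: `bd 2 ≤ ∑ k (m+3) ‖a‖ q_2` (`bd_poly_le_sum`), `∑ k (m+1) ‖a‖ q_0 ≤ bd 0` (`sum_le_bd_poly`), and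
`mom p (poly S) = ∑ q_p` (`poly_subset_cones` and `aedisjoint_cones`, `coneOn_facet_subset`). -/
theorem polyE {m : ℕ} {S : Finset (E (m + 1))} {R : ℝ} (hR : 0 < R) (hS : ∀ x ∈ poly S, ‖x‖ ≤ R) :
    ENNReal.ofReal (R ^ 2) * bd 2 (poly S) + ENNReal.ofReal (2 * R ^ 3 * (kap m * (m + 1))) * mom 0 (poly S) +
        ENNReal.ofReal (kap m * (m + 4)) * mom 3 (poly S) ≤
      ENNReal.ofReal (R ^ 4) * bd 0 (poly S) + ENNReal.ofReal (R ^ 2 * (kap m * (m + 2))) * mom 1 (poly S) +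
        ENNReal.ofReal (2 * R * (kap m * (m + 3))) * mom 2 (poly S) := by
  have h1 := bd_poly_le_sum (p := 2) S
  have h2 := sum_le_bd_poly (p := 0) S
  have h3 := polyE_momu (p := 0) (polyE_bdd hS)
  have h3' := polyE_momu (p := 3) (polyE_bdd hS)
  have h4 := polyE_moml (p := 1) S
  have h4' := polyE_moml (p := 2) S
  calc ENNReal.ofReal (R ^ 2) * bd 2 (poly S) +
        ENNReal.ofReal (2 * R ^ 3 * (kap m * (m + 1))) * mom 0 (poly S) +
        ENNReal.ofReal (kap m * (m + 4)) * mom 3 (poly S)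
      ≤ ENNReal.ofReal (R ^ 2) * (∑ a ∈ S, ENNReal.ofReal (kap m * (m + 1 + (2 : ℕ)) * ‖a‖) *
          mom 2 (coneOn (facet S a))) +
        ENNReal.ofReal (2 * R ^ 3 * (kap m * (m + 1))) * ∑ a ∈ S, mom 0 (coneOn (facet S a)) +
        ENNReal.ofReal (kap m * (m + 4)) * ∑ a ∈ S, mom 3 (coneOn (facet S a)) :=
        add_le_add (add_le_add (mul_le_mul_right h1 _) (mul_le_mul_right h3 _))
          (mul_le_mul_right h3' _)
    _ = ∑ a ∈ S, (ENNReal.ofReal (R ^ 2) * (ENNReal.ofReal (kap m * (m + 1 + (2 : ℕ)) * ‖a‖) *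
          mom 2 (coneOn (facet S a))) +
        ENNReal.ofReal (2 * R ^ 3 * (kap m * (m + 1))) * mom 0 (coneOn (facet S a)) +
        ENNReal.ofReal (kap m * (m + 4)) * mom 3 (coneOn (facet S a))) := by
        rw [Finset.mul_sum, Finset.mul_sum, Finset.mul_sum, Finset.sum_add_distrib,
          Finset.sum_add_distrib]
    _ ≤ ∑ a ∈ S, (ENNReal.ofReal (R ^ 4) * (ENNReal.ofReal (kap m * (m + 1 + (0 : ℕ)) * ‖a‖) *
          mom 0 (coneOn (facet S a))) +
        ENNReal.ofReal (R ^ 2 * (kap m * (m + 2))) * mom 1 (coneOn (facet S a)) +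
        ENNReal.ofReal (2 * R * (kap m * (m + 3))) * mom 2 (coneOn (facet S a))) :=
        Finset.sum_le_sum fun a ha => polyE_term hR hS ha
    _ = ENNReal.ofReal (R ^ 4) * (∑ a ∈ S, ENNReal.ofReal (kap m * (m + 1 + (0 : ℕ)) * ‖a‖) *
          mom 0 (coneOn (facet S a))) +
        ENNReal.ofReal (R ^ 2 * (kap m * (m + 2))) * ∑ a ∈ S, mom 1 (coneOn (facet S a)) +
        ENNReal.ofReal (2 * R * (kap m * (m + 3))) * ∑ a ∈ S, mom 2 (coneOn (facet S a)) := by
        rw [Finset.mul_sum, Finset.mul_sum, Finset.mul_sum, Finset.sum_add_distrib,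
          Finset.sum_add_distrib]
    _ ≤ ENNReal.ofReal (R ^ 4) * bd 0 (poly S) +
        ENNReal.ofReal (R ^ 2 * (kap m * (m + 2))) * mom 1 (poly S) +
        ENNReal.ofReal (2 * R * (kap m * (m + 3))) * mom 2 (poly S) :=
        add_le_add (add_le_add (mul_le_mul_right h2 _) (mul_le_mul_right h4 _))
          (mul_le_mul_right h4' _)

end BM939
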